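import Pool.Agent.Helper19.SO.RealAux
import Pool.Agent.Helper24.SO.CardOfFinrank
import Pool.Agent.Helper30.SO.Dual
import Pool.Agent.Helper52.SO.FullDual
import Pool.Agent.Helper86.SO.CellInter

set_option autoImplicit false

/-! SO-15: generic weights with prescribed minimisers realise the positions. -/

namespace Pool.Agent.Helper28.SO

/-- SO-15. -/
theorem realized_of_weights {n d : ℕ} (hn : 1 ≤ n) (hd : 1 ≤ d) (w : Fin n → Fin d → ℝ)
    (hw : Generic w) (v : Fin n → Fin d → ℕ) (σ : Fin n → Fin n → Fin d)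
    (hσ : ∀ i j, i ≠ j → ∀ k, k ≠ σ i j → w j (σ i j) - w i (σ i j) < w j k - w i k)
    (hv : ∀ i k, v i k = (Finset.univ.filter (fun j => j ≠ i ∧ σ i j = k)).card)
    (U : Finset (Fin d → ℕ)) (hU : ∀ u, u ∈ U ↔ ∃ i, v i = u) :
    Realized n d U :=
  realized_of_weights_aux (fun hd w hw y h => card_of_finrank hd w hw y h)
    (fun w x hx hs => exists_dual w x hx hs)
    (fun hn hd w x hx => exists_full_dual hn hd w x hx)
    (fun w y z => cell_inter w y z) hn hd w hw v σ hσ hv U hU

end Pool.Agent.Helper28.SO
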