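import Pool.Agent.Helper1.SO.VSpan

set_option autoImplicit false

/-! SO-15 (auxiliary part): generic weights with prescribed minimisers realise the positions, from the
statements SO-11, SO-12, SO-13, SO-14. -/

namespace Pool.Agent.Helper28.SO

theorem mem_argm {n d : ℕ} (w : Fin n → Fin d → ℝ) (y : Fin d → ℝ) (i : Fin n) (k : Fin d) :
    k ∈ argm w y i ↔ ∀ k', w i k - y k ≤ w i k' - y k' := by
  classical
  unfold argm
  simp

theorem argm_nonempty {n d : ℕ} (hd : 1 ≤ d) (w : Fin n → Fin d → ℝ) (y : Fin d → ℝ)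
    (i : Fin n) : (argm w y i).Nonempty := by
  have : Nonempty (Fin d) := ⟨⟨0, by omega⟩⟩
  obtain ⟨k, hk⟩ := Finite.exists_min (fun k => w i k - y k)
  exact ⟨k, (mem_argm w y i k).2 hk⟩

/-- the minimisers at a translate of the apex of label `i` -/
theorem argm_translate {n d : ℕ} (w : Fin n → Fin d → ℝ) (σ : Fin n → Fin n → Fin d)
    (hσ : ∀ i j, i ≠ j → ∀ k, k ≠ σ i j → w j (σ i j) - w i (σ i j) < w j k - w i k)
    (i : Fin n) (c : ℝ) (y : Fin d → ℝ) (hy : ∀ k, y k = w i k - c) (j : Fin n) (hj : j ≠ i) :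
    argm w y j = {σ i j} := by
  ext k
  rw [mem_argm, Finset.mem_singleton]
  constructor
  · intro h
    by_contra hk
    have h1 := hσ i j hj.symm k hk
    have h2 := h (σ i j)
    rw [hy, hy] at h2
    linarith
  · rintro rfl k'
    by_cases hk : k' = σ i j
    · rw [hk]
    · have h1 := hσ i j hj.symm k' hk
      rw [hy, hy]
      linarith

theorem finrank_full {d : ℕ} (hd : 1 ≤ d) :
    Module.finrank ℝ (Submodule.span ℝ
      {z : Fin d → ℝ | ∃ k k' : Fin d, z = Pi.single k 1 - Pi.single k' 1}) = d - 1 := by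
  have h1 : AffineIndependent ℝ (fun k : Fin d => (Pi.single k 1 : Fin d → ℝ)) :=
    (Pi.linearIndependent_single_one (Fin d) ℝ).affineIndependent
  have h2 := h1.finrank_vectorSpan (n := d - 1) (by rw [Fintype.card_fin]; omega)
  have h3 : vectorSpan ℝ (Set.range (fun k : Fin d => (Pi.single k 1 : Fin d → ℝ))) =
      Submodule.span ℝ
      {z : Fin d → ℝ | ∃ k k' : Fin d, z = Pi.single k 1 - Pi.single k' 1} := by
    rw [vectorSpan_def]
    congr 1
    ext z
    constructor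
    · rintro ⟨_, ⟨k, rfl⟩, _, ⟨k', rfl⟩, rfl⟩
      exact ⟨k, k', rfl⟩
    · rintro ⟨k, k', rfl⟩
      exact ⟨_, ⟨k, rfl⟩, _, ⟨k', rfl⟩, rfl⟩
  rw [← h3, h2]

theorem finrank_cell_univ {n d : ℕ} (hd : 1 ≤ d) (B : Fin n → Finset (Fin d))
    (hB : ∀ i, (B i).Nonempty) (i : Fin n) (hi : B i = Finset.univ) :
    Module.finrank ℝ (vectorSpan ℝ (cell B)) = d - 1 := by
  have e : {z : Fin d → ℝ | ∃ i, ∃ k ∈ B i, ∃ k' ∈ B i, z = Pi.single k 1 - Pi.single k' 1} =
      {z : Fin d → ℝ | ∃ k k' : Fin d, z = Pi.single k 1 - Pi.single k' 1} := by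
    ext z
    constructor
    · rintro ⟨j, k, _, k', _, h⟩
      exact ⟨k, k', h⟩
    · rintro ⟨k, k', h⟩
      exact ⟨i, k, by rw [hi]; exact Finset.mem_univ k, k', by rw [hi]; exact Finset.mem_univ k',
        h⟩
  rw [vectorSpan_cell B hB, e, finrank_full hd]

/-- SO-15 from SO-11, ..., SO-14. -/
theorem realized_of_weights_aux
    (card_of_finrank : ∀ {n d : ℕ} (_ : 1 ≤ d) (w : Fin n → Fin d → ℝ) (_ : Generic w)
      (y : Fin d → ℝ) (_ : Module.finrank ℝ (vectorSpan ℝ (cell (argm w y))) = d - 1),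
      ∑ i, ((argm w y i).card - 1) = d - 1)
    (exists_dual : ∀ {n d : ℕ} (w : Fin n → Fin d → ℝ) (x : Fin d → ℝ)
      (_ : ∀ k, 0 ≤ x k) (_ : ∑ k, x k = (n : ℝ)), ∃ y : Fin d → ℝ, x ∈ cell (argm w y))
    (exists_full_dual : ∀ {n d : ℕ} (_ : 1 ≤ n) (_ : 1 ≤ d) (w : Fin n → Fin d → ℝ)
      (x : Fin d → ℝ) (_ : ∃ y : Fin d → ℝ, x ∈ cell (argm w y)),
      ∃ y : Fin d → ℝ, x ∈ cell (argm w y) ∧
        Module.finrank ℝ (vectorSpan ℝ (cell (argm w y))) = d - 1)
    (cell_inter : ∀ {n d : ℕ} (w : Fin n → Fin d → ℝ) (y z : Fin d → ℝ),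
      cell (argm w y) ∩ cell (argm w z) = ∅ ∨
      ∃ l m : Fin d → ℝ, ∀ F : Fin n → Finset (Fin d),
        F = (fun i => (argm w y i).filter (fun k => ∀ k' ∈ argm w y i, l k ≤ l k')) →
        (F = (fun i => (argm w z i).filter (fun k => ∀ k' ∈ argm w z i, m k ≤ m k')) ∧
          cell (argm w y) ∩ cell (argm w z) = cell F))
    {n d : ℕ} (hn : 1 ≤ n) (hd : 1 ≤ d) (w : Fin n → Fin d → ℝ)
    (hw : Generic w) (v : Fin n → Fin d → ℕ) (σ : Fin n → Fin n → Fin d)
    (hσ : ∀ i j, i ≠ j → ∀ k, k ≠ σ i j → w j (σ i j) - w i (σ i j) < w j k - w i k)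
    (hv : ∀ i k, v i k = (Finset.univ.filter (fun j => j ≠ i ∧ σ i j = k)).card)
    (U : Finset (Fin d → ℕ)) (hU : ∀ u, u ∈ U ↔ ∃ i, v i = u) :
    Realized n d U := by
  classical
  set S : Finset (Fin n → Finset (Fin d)) := Finset.univ.filter (fun B =>
    ∃ y, B = argm w y ∧ Module.finrank ℝ (vectorSpan ℝ (cell B)) = d - 1) with hS
  have hmem : ∀ B, B ∈ S ↔ ∃ y, B = argm w y ∧
      Module.finrank ℝ (vectorSpan ℝ (cell B)) = d - 1 := by
    intro B
    rw [hS, Finset.mem_filter]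
    simp
  have hcount : ∀ (B : Fin n → Finset (Fin d)) (i : Fin n),
      (∀ j, j ≠ i → B j = {σ i j}) → ∀ k, v i k =
        (Finset.univ.filter (fun j => j ≠ i ∧ k ∈ B j)).card := by
    intro B i hB k
    rw [hv i k]
    congr 1
    ext j
    simp only [Finset.mem_filter, Finset.mem_univ, true_and]
    constructor
    · rintro ⟨h1, h2⟩
      exact ⟨h1, by rw [hB j h1, Finset.mem_singleton]; exact h2.symm⟩
    · rintro ⟨h1, h2⟩
      rw [hB j h1, Finset.mem_singleton] at h2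
      exact ⟨h1, h2.symm⟩
  refine ⟨S, ⟨?_, ?_, ?_⟩, ?_⟩
  · intro B hB
    obtain ⟨y, rfl, hr⟩ := (hmem B).1 hB
    exact ⟨fun i => argm_nonempty hd w y i, card_of_finrank hd w hw y hr, hr⟩
  · intro x hx hs
    obtain ⟨y, hy, hr⟩ := exists_full_dual hn hd w x (exists_dual w x hx hs)
    exact ⟨argm w y, (hmem _).2 ⟨y, rfl, hr⟩, hy⟩
  · intro B hB C hC
    obtain ⟨y, rfl, _⟩ := (hmem B).1 hB
    obtain ⟨z, rfl, _⟩ := (hmem C).1 hC
    exact cell_inter w y z
  · intro u
    rw [hU]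
    constructor
    · rintro ⟨i, rfl⟩
      have huniv : argm w (w i) i = Finset.univ := by
        ext k
        rw [mem_argm]
        simp
      refine ⟨argm w (w i), (hmem _).2 ⟨w i, rfl, ?_⟩, i, huniv, ?_⟩
      · exact finrank_cell_univ hd _ (fun j => argm_nonempty hd w (w i) j) i huniv
      · exact hcount _ i (fun j hj => argm_translate w σ hσ i 0 (w i) (fun k => by simp) j hj)
    · rintro ⟨B, hB, i, hi, hk⟩
      obtain ⟨y, rfl, _⟩ := (hmem B).1 hB
      have k0 : Fin d := ⟨0, by omega⟩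
      have hy : ∀ k, y k = w i k - (w i k0 - y k0) := by
        intro k
        have h1 : k ∈ argm w y i := by rw [hi]; exact Finset.mem_univ k
        have h2 : k0 ∈ argm w y i := by rw [hi]; exact Finset.mem_univ k0
        rw [mem_argm] at h1 h2
        have := h1 k0
        have := h2 k
        linarith
      refine ⟨i, ?_⟩
      funext k
      rw [hk k]
      exact hcount _ i (fun j hj => argm_translate w σ hσ i _ y hy j hj) k

end Pool.Agent.Helper28.SO
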